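import Pool.Agent.R301.PD.Fin

/-!
MP_459901_an, Q1: a full negative answer.

The map `φ(x₀, x₁) = (x₀ + x₁ + β(x₀), x₁ + β(x₀))` of the flat torus, where `β` is the circle
diffeomorphism induced by the Blaschke factor `(z - 1/10)/(1 - z/10)`, is exponentially mixing, but
the pulsed diffusion started at `2 cos(2π x₁)` decays no faster than `(e^{-4π²ν}/10)^n`.
-/

open MeasureTheory UnitAddTorus
open scoped ContDiff ComplexConjugate

namespace Pool.Agent.Results.MP_459901_an.PulsedDiffusionTorus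

attribute [local instance] instMeasureSpaceUnitAddCircle

/-- The flat torus `T² = ℝ²/ℤ²`. -/
abbrev T2 : Type := UnitAddTorus (Fin 2)

/-- The normalised area measure of `T²` (product of the Haar probability measures of `ℝ/ℤ`). -/
noncomputable def area : Measure T2 := volume

/-- The covering map `ℝ² → T² = ℝ²/ℤ²`. -/
def cov (x : Fin 2 → ℝ) : T2 := fun i => ((x i : ℝ) : UnitAddCircle)

/-- `f : T² → T²` lifts to a `C^∞` map of `ℝ²`. -/
def SmoothLift (f : T2 → T2) : Prop :=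
  ∃ Φ : (Fin 2 → ℝ) → (Fin 2 → ℝ), ContDiff ℝ ∞ Φ ∧ ∀ x, f (cov x) = cov (Φ x)

/-- `φ` is a smooth volume preserving diffeomorphism of `T²`: smooth, with a smooth two sided
inverse `ψ`, and it preserves `area`. -/
def VolDiffeo (φ : T2 → T2) : Prop :=
  MeasurePreserving φ area area ∧ SmoothLift φ ∧
    ∃ ψ : T2 → T2, SmoothLift ψ ∧ (∀ x, ψ (φ x) = x) ∧ ∀ x, φ (ψ x) = x

/-- `f` is square integrable. -/
def SqInt (f : T2 → ℂ) : Prop := MemLp f 2 area

/-- The norm of `L²(T²)`. -/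
noncomputable def l2norm (f : T2 → ℂ) : ℝ := Real.sqrt (∫ x, ‖f x‖ ^ 2 ∂area)

/-- `f` has mean zero. -/
def MeanZero (f : T2 → ℂ) : Prop := ∫ x, f x ∂area = 0

/-- The Fourier coefficient of `f` at `k`; `mFourier k x = exp(2πi k·x)`. -/
noncomputable def coef (f : T2 → ℂ) (k : Fin 2 → ℤ) : ℂ := ∫ x, mFourier (-k) x * f x ∂area

/-- The eigenvalue `4π²|k|²` of `-Δ` on `exp(2πi k·x)`. -/
noncomputable def eig (k : Fin 2 → ℤ) : ℝ := 4 * Real.pi ^ 2 * ((k 0 : ℝ) ^ 2 + (k 1 : ℝ) ^ 2)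

/-- The heat operator, `(e^{νΔ} f)(x) = ∑_k exp(-4π²ν|k|²) f̂(k) exp(2πi k·x)` (for `ν > 0`). -/
noncomputable def heat (ν : ℝ) (f : T2 → ℂ) : T2 → ℂ := fun x =>
  ∑' k : Fin 2 → ℤ, (Real.exp (-ν * eig k) : ℂ) * coef f k * mFourier k x

/-- `f ∈ Ḣ^s(T²)`: square integrable, mean zero, `∑_k (4π²|k|²)^s |f̂(k)|² < ∞`. -/
def MemH (s : ℝ) (f : T2 → ℂ) : Prop :=
  SqInt f ∧ MeanZero f ∧ Summable fun k : Fin 2 → ℤ => eig k ^ s * ‖coef f k‖ ^ 2

/-- The homogeneous Sobolev norm `‖f‖_s = ‖(-Δ)^{s/2} f‖`. -/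
noncomputable def sobNorm (s : ℝ) (f : T2 → ℂ) : ℝ :=
  Real.sqrt (∑' k : Fin 2 → ℤ, eig k ^ s * ‖coef f k‖ ^ 2)

/-- `⟨f, g⟩` in `L²(T²)`. -/
noncomputable def pairing (f g : T2 → ℂ) : ℂ := ∫ x, f x * conj (g x) ∂area

/-- `φ` is exponentially mixing: for some `α, β, c₁, c₂ > 0`,
`|⟨f ∘ φⁿ, g⟩| ≤ c₁ e^{-c₂ n} ‖f‖_α ‖g‖_β` for all `n ≥ 0`, `f ∈ Ḣ^α`, `g ∈ Ḣ^β`. -/
def ExpMixing (φ : T2 → T2) : Prop :=
  ∃ α > (0 : ℝ), ∃ β > (0 : ℝ), ∃ c₁ > (0 : ℝ), ∃ c₂ > (0 : ℝ), ∀ (n : ℕ) (f g : T2 → ℂ),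
    MemH α f → MemH β g →
      ‖pairing (f ∘ φ^[n]) g‖ ≤ c₁ * Real.exp (-c₂ * n) * sobNorm α f * sobNorm β g

/-- One step `θ ↦ e^{νΔ}(θ ∘ φ)` of the pulsed diffusion. -/
noncomputable def pulse (φ : T2 → T2) (ν : ℝ) (θ : T2 → ℂ) : T2 → ℂ := heat ν (θ ∘ φ)

/-- Real valued, square integrable and of mean zero. -/
def Datum (θ : T2 → ℂ) : Prop := SqInt θ ∧ MeanZero θ ∧ ∀ x, (θ x).im = 0

/-- The conclusion asked for in the question, for one map `φ` (and real valued data). -/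
def UniformExpGrowth (φ : T2 → T2) : Prop :=
  ∃ C > (0 : ℝ), ∃ γ > (1 : ℝ), ∃ ν₀ > (0 : ℝ), ∀ ν : ℝ, 0 < ν → ν ≤ ν₀ → ∀ n : ℕ, 1 ≤ n →
    ∀ θ₀ : T2 → ℂ, Datum θ₀ →
      l2norm ((pulse φ ν)^[n] θ₀) ≤ Real.exp (-(ν * γ ^ n / C)) * l2norm θ₀

/-! ### Transfer to the `L²` classes -/

section transfer

open Pool.Agent.R301

local instance instProb : IsProbabilityMeasure (volume : Measure UnitAddCircle) :=
  inferInstanceAs (IsProbabilityMeasure AddCircle.haarAddCircle)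

theorem coef_eq (f : T2 → ℂ) (k : Fin 2 → ℤ) : coef f k = mFourierCoeff f k := rfl

theorem coef_congr {f g : T2 → ℂ} (h : f =ᵐ[volume] g) (k : Fin 2 → ℤ) : coef f k = coef g k := by
  rw [coef_eq, coef_eq, PD.mFourierCoeff_eq, PD.mFourierCoeff_eq, PD.fc_congr h]

theorem l2norm_congr {f g : T2 → ℂ} (h : f =ᵐ[volume] g) : l2norm f = l2norm g := by
  unfold l2norm
  congr 1
  refine integral_congr_ae ?_
  unfold area
  filter_upwards [h] with x hx
  rw [hx]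

theorem l2norm_coe (F : PD.L2) : l2norm F = ‖F‖ := by
  have h1 := hasSum_sq_mFourierCoeff (d := Fin 2) F
  have h2 := PD.ek.hasSum_iff.2 h1
  have h3 := PD.hasSum_norm F
  have h4 : HasSum (fun x : ℤ × ℤ => ‖PD.fc F x.2 x.1‖ ^ 2) (∫ t, ‖F t‖ ^ 2) := by
    refine h2.congr_fun fun x => ?_
    simp only [Function.comp]
    rw [PD.mFourierCoeff_eq]; rfl
  have h5 := h4.unique h3
  unfold l2norm area
  rw [h5, Real.sqrt_sq (norm_nonneg _)]

theorem summable_exp_int {c : ℝ} (hc : 0 < c) : Summable fun m : ℤ => Real.exp (-c * (m : ℝ) ^ 2) := by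
  have h1 : Real.exp (-c) < 1 := (Real.exp_lt_exp.2 (by linarith : -c < 0)).trans_eq Real.exp_zero
  have h : Summable fun m : ℤ => Real.exp (-c) ^ m.natAbs := by
    apply Summable.of_nat_of_neg
    · simpa using summable_geometric_of_lt_one (Real.exp_pos _).le h1
    · simpa using summable_geometric_of_lt_one (Real.exp_pos _).le h1
  refine Summable.of_nonneg_of_le (fun m => (Real.exp_pos _).le) (fun m => ?_) h
  rw [← Real.exp_nat_mul, Real.exp_le_exp, Nat.cast_natAbs, Int.cast_abs]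
  have h1 : |(m : ℝ)| ≤ (m : ℝ) ^ 2 := by
    rcases eq_or_ne m 0 with h0 | h0
    · subst h0; simp
    · have : (1 : ℝ) ≤ |(m : ℝ)| := by exact_mod_cast Int.one_le_abs h0
      rw [← sq_abs]; nlinarith
  nlinarith

theorem summable_exp_eig {ν : ℝ} (hν : 0 < ν) : Summable fun k : Fin 2 → ℤ => Real.exp (-ν * eig k) := by
  rw [← PD.ek.summable_iff]
  have hc : 0 < ν * (4 * Real.pi ^ 2) := by positivity
  have h1 := summable_exp_int hc
  have h2 := h1.mul_of_nonneg h1 (fun m => (Real.exp_pos _).le) (fun m => (Real.exp_pos _).le)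
  refine h2.congr fun x => ?_
  simp only [Function.comp]
  rw [← Real.exp_add]
  congr 1
  unfold eig
  rw [PD.ek0, PD.ek1]; ring

theorem heat_ae {ν : ℝ} (hν : 0 < ν) (F : PD.L2) : heat ν F =ᵐ[volume] (PD.heat ν F : T2 → ℂ) := by
  set v : (Fin 2 → ℤ) → ℂ := fun k => (Real.exp (-ν * eig k) : ℂ) * mFourierCoeff F k with hv
  have hb : ∀ k, ‖mFourierCoeff F k‖ ≤ ‖F‖ := by
    intro k
    rw [PD.mFourierCoeff_eq]
    have h := PD.hasSum_norm F
    have h2 : ‖PD.fc F (k 0) (k 1)‖ ^ 2 ≤ ‖F‖ ^ 2 := by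
      rw [← h.tsum_eq]
      exact h.summable.le_tsum ((k 1, k 0) : ℤ × ℤ) (fun j _ => by positivity)
    exact (sq_le_sq₀ (norm_nonneg _) (norm_nonneg _)).1 h2
  have hs : Summable fun k => ‖v k‖ := by
    refine Summable.of_nonneg_of_le (fun k => norm_nonneg _) (fun k => ?_)
      ((summable_exp_eig hν).mul_right ‖F‖)
    rw [hv, norm_mul, Complex.norm_real, Real.norm_eq_abs, abs_of_pos (Real.exp_pos _)]
    gcongr
    exact hb k
  have hsum : Summable fun k => (v k • (mFourier k : C(T2, ℂ))) := by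
    refine Summable.of_norm ?_
    simpa only [norm_smul, mFourier_norm, mul_one] using hs
  obtain ⟨G, hG⟩ := hsum
  have h1 : heat ν F = G := by
    funext x
    have h2 : HasSum (fun k => (v k • (mFourier k : C(T2, ℂ))) x) (G x) :=
      (ContinuousMap.hasSum_apply hG x)
    rw [← h2.tsum_eq]
    rfl
  have h3 : HasSum (fun k => v k • mFourierLp 2 k) (ContinuousMap.toLp (E := ℂ) 2 volume ℂ G) := by
    have := hG.mapL (ContinuousMap.toLp (E := ℂ) 2 (volume : Measure T2) ℂ)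
    simpa only [map_smul] using this
  have h4 : PD.heat ν F = ContinuousMap.toLp (E := ℂ) 2 volume ℂ G := by
    rw [← h3.tsum_eq]; rfl
  rw [h1, h4]
  exact (ContinuousMap.coeFn_toLp (p := 2) (𝕜 := ℂ) volume G).symm

theorem heat_congr {ν : ℝ} {f g : T2 → ℂ} (h : f =ᵐ[volume] g) : heat ν f = heat ν g := by
  funext x
  unfold heat
  simp only [coef_congr h]

theorem pulse_ae {ν : ℝ} (hν : 0 < ν) {θ : T2 → ℂ} {F : PD.L2} (h : θ =ᵐ[volume] F) :
    pulse PD.phi.toHomeo ν θ =ᵐ[volume] (PD.pulse PD.phi ν F : T2 → ℂ) := by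
  have h1 : θ ∘ PD.phi.toHomeo =ᵐ[volume] (PD.phi.U F : T2 → ℂ) :=
    (PD.phi.mp.quasiMeasurePreserving.ae_eq_comp h).trans (PD.U_ae F).symm
  unfold pulse PD.pulse
  rw [heat_congr h1]
  exact heat_ae hν _

theorem pulse_iter_ae {ν : ℝ} (hν : 0 < ν) {θ : T2 → ℂ} {F : PD.L2} (h : θ =ᵐ[volume] F) (n : ℕ) :
    (pulse PD.phi.toHomeo ν)^[n] θ =ᵐ[volume] ((PD.pulse PD.phi ν)^[n] F : PD.L2) := by
  induction n with
  | zero => exact h
  | succ n ih =>
    rw [Function.iterate_succ_apply', Function.iterate_succ_apply']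
    exact pulse_ae hν ih

theorem U_iter_ae {θ : T2 → ℂ} {F : PD.L2} (h : θ =ᵐ[volume] F) (n : ℕ) :
    θ ∘ PD.phi.toHomeo^[n] =ᵐ[volume] (PD.phi.U^[n] F : PD.L2) := by
  induction n generalizing θ F with
  | zero => exact h
  | succ n ih =>
    rw [Function.iterate_succ_apply, Function.iterate_succ', ← Function.comp_assoc]
    exact ih ((PD.phi.mp.quasiMeasurePreserving.ae_eq_comp h).trans (PD.U_ae F).symm)

theorem expMixing : ExpMixing PD.phi.toHomeo := by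
  obtain ⟨α, hα, β, hβ, c₁, hc₁, c₂, hc₂, H⟩ := PD.expMixing_phi
  refine ⟨α, hα, β, hβ, c₁, hc₁, c₂, hc₂, ?_⟩
  intro n f g hf hg
  have hf' : MemLp f 2 (volume : Measure T2) := hf.1
  have hg' : MemLp g 2 (volume : Measure T2) := hg.1
  set F : PD.L2 := hf'.toLp f with hF
  set G : PD.L2 := hg'.toLp g with hG
  have eF : (F : T2 → ℂ) =ᵐ[volume] f := hf'.coeFn_toLp
  have eG : (G : T2 → ℂ) =ᵐ[volume] g := hg'.coeFn_toLp
  have cF : ∀ k, mFourierCoeff F k = coef f k := fun k => coef_congr eF k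
  have cG : ∀ k, mFourierCoeff G k = coef g k := fun k => coef_congr eG k
  have hF2 : PD.MemH α F := by
    refine ⟨?_, ?_⟩
    · exact (integral_congr_ae eF).trans hf.2.1
    · simp only [cF]; exact hf.2.2
  have hG2 : PD.MemH β G := by
    refine ⟨?_, ?_⟩
    · exact (integral_congr_ae eG).trans hg.2.1
    · simp only [cG]; exact hg.2.2
  have h := H n F G hF2 hG2
  have sF : PD.sobNorm α F = sobNorm α f := by
    unfold PD.sobNorm sobNorm; simp only [cF]; rfl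
  have sG : PD.sobNorm β G = sobNorm β g := by
    unfold PD.sobNorm sobNorm; simp only [cG]; rfl
  rw [sF, sG] at h
  have hi : inner ℂ G (PD.phi.U^[n] F) = pairing (f ∘ PD.phi.toHomeo^[n]) g := by
    rw [MeasureTheory.L2.inner_def]
    unfold pairing area
    refine integral_congr_ae ?_
    filter_upwards [eG, U_iter_ae eF.symm n] with x h1 h2
    rw [h1, ← h2, RCLike.inner_apply]
  rw [hi] at h
  exact h

/-- The initial datum `2 cos (2π x₁)`. -/
noncomputable def datum (x : T2) : ℂ := mFourier ![0, 1] x + mFourier ![0, -1] x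

theorem datum_ae : datum =ᵐ[volume] (PD.th0 : T2 → ℂ) := by
  unfold PD.th0
  filter_upwards [Lp.coeFn_add (mFourierLp 2 ![0, 1] : PD.L2) (mFourierLp 2 ![0, -1]),
    coeFn_mFourierLp (d := Fin 2) 2 ![0, 1], coeFn_mFourierLp (d := Fin 2) 2 ![0, -1]] with x h h1 h2
  rw [h, Pi.add_apply, h1, h2]; rfl

theorem datum_datum : Datum datum := by
  refine ⟨?_, ?_, ?_⟩
  · exact (memLp_congr_ae datum_ae).2 (PD.memL2 PD.th0)
  · exact (integral_congr_ae datum_ae).trans PD.meanZero_th0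
  · intro x
    unfold datum
    rw [PD.mFourier_eq, PD.mFourier_eq]
    have e : PD.zz (x 1) ^ (-1 : ℤ) = conj (PD.zz (x 1)) := by
      rw [zpow_neg_one]; exact Complex.inv_eq_conj (PD.zz_norm _)
    simp [e]

theorem volDiffeo : VolDiffeo PD.phi.toHomeo :=
  ⟨PD.phi.mp, PD.phi.smooth, PD.phi.toHomeo.symm, PD.phi.smooth_symm,
    fun x => PD.phi.toHomeo.symm_apply_apply x, fun x => PD.phi.toHomeo.apply_symm_apply x⟩

end transfer

/-- Some smooth volume preserving diffeomorphism `φ` of the flat torus `T²` is exponentially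
mixing, but the uniform double exponential decay asked for fails (already for real valued data);
in fact one real valued mean zero `θ₀ ≠ 0` satisfies
`‖θ_n‖ ≥ (1/2) (e^{-4π²ν}/10)^n ‖θ₀‖` for all `ν > 0` and all `n`, and for every `ν > 0`, `C > 0`,
`γ > 1` there is `n ≥ 1` with `‖θ_n‖ > exp(-ν γ^n / C) ‖θ₀‖`. -/
theorem result : ∃ φ : T2 → T2, VolDiffeo φ ∧ ExpMixing φ ∧ ¬ UniformExpGrowth φ ∧
    ∃ θ₀ : T2 → ℂ, Datum θ₀ ∧ 0 < l2norm θ₀ ∧
      (∀ ν : ℝ, 0 < ν → ∀ n : ℕ,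
        (Real.exp (-(4 * Real.pi ^ 2 * ν)) / 10) ^ n * l2norm θ₀
          ≤ 2 * l2norm ((pulse φ ν)^[n] θ₀)) ∧
      (∀ ν : ℝ, 0 < ν → ∀ C : ℝ, 0 < C → ∀ γ : ℝ, 1 < γ → ∃ n : ℕ, 1 ≤ n ∧
        Real.exp (-(ν * γ ^ n / C)) * l2norm θ₀ < l2norm ((pulse φ ν)^[n] θ₀)) := by
  have hn : ∀ ν : ℝ, 0 < ν → ∀ n : ℕ, l2norm ((pulse Pool.Agent.R301.PD.phi.toHomeo ν)^[n] datum)
      = ‖(Pool.Agent.R301.PD.pulse Pool.Agent.R301.PD.phi ν)^[n] Pool.Agent.R301.PD.th0‖ := by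
    intro ν hν n
    rw [l2norm_congr (pulse_iter_ae hν datum_ae n), l2norm_coe]
  have hd : l2norm datum = ‖Pool.Agent.R301.PD.th0‖ := by
    rw [l2norm_congr datum_ae, l2norm_coe]
  have key : ∀ ν : ℝ, 0 < ν → ∀ C : ℝ, 0 < C → ∀ γ : ℝ, 1 < γ → ∃ n : ℕ, 1 ≤ n ∧
        Real.exp (-(ν * γ ^ n / C)) * l2norm datum
          < l2norm ((pulse Pool.Agent.R301.PD.phi.toHomeo ν)^[n] datum) := by
    intro ν hν C hC γ hγ
    obtain ⟨n, hn1, h⟩ := Pool.Agent.R301.PD.eventually_small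
      (a := 4 * Real.pi ^ 2 * ν + Real.log 10) hC hγ hν
    refine ⟨n, hn1, ?_⟩
    have e : Real.exp (-(4 * Real.pi ^ 2 * ν + Real.log 10))
        = Real.exp (-(4 * Real.pi ^ 2 * ν)) / 10 := by
      rw [neg_add, Real.exp_add, Real.exp_neg (Real.log 10), Real.exp_log (by norm_num)]
      rfl
    rw [e] at h
    rw [hn ν hν n, hd]
    calc Real.exp (-(ν * γ ^ n / C)) * ‖Pool.Agent.R301.PD.th0‖
        ≤ Real.exp (-(ν * γ ^ n / C)) * 2 := by
          gcongr; exact Pool.Agent.R301.PD.norm_th0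
      _ < _ := h
      _ ≤ _ := Pool.Agent.R301.PD.lower_bound hν.le n
  refine ⟨Pool.Agent.R301.PD.phi.toHomeo, volDiffeo, expMixing, ?_, datum, datum_datum, ?_, ?_, key⟩
  · rintro ⟨C, hC, γ, hγ, ν₀, hν₀, h⟩
    obtain ⟨n, hn, h1⟩ := key ν₀ hν₀ C hC γ hγ
    exact absurd (h ν₀ hν₀ le_rfl n hn datum datum_datum) (not_le.2 h1)
  · rw [hd]
    have h1 := Pool.Agent.R301.PD.lower_bound (le_refl (0:ℝ)) 0
    simp only [pow_zero, Function.iterate_zero, id_eq] at h1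
    linarith
  · intro ν hν n
    rw [hn ν hν n, hd]
    have h1 := Pool.Agent.R301.PD.lower_bound hν.le n
    have h2 := Pool.Agent.R301.PD.norm_th0
    have h3 : 0 ≤ (Real.exp (-(4 * Real.pi ^ 2 * ν)) / 10) ^ n := by positivity
    nlinarith [norm_nonneg Pool.Agent.R301.PD.th0]

end Pool.Agent.Results.MP_459901_an.PulsedDiffusionTorus
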